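import Pool.Agent.H477Z.Kel.Main

set_option autoImplicit false

namespace Pool.Agent.Results.MP_78373f_an.AGammaLtGammaStar

open Pool.Agent.H477Z.Kel

/-- There is an eight dimensional real normed space whose simultaneous packing and covering
constant is strictly smaller than its lattice simultaneous packing and covering constant. -/
theorem result : ∃ (X : Type) (_ : NormedAddCommGroup X) (_ : NormedSpace ℝ X),
    Module.finrank ℝ X = 8 ∧ gamma X < gammaStar X :=
  main

end Pool.Agent.Results.MP_78373f_an.AGammaLtGammaStar
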