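import Pool.Agent.H524Z.Gam.Main

/-!
# The two simultaneous packing and covering constants differ in some normed space
-/

set_option autoImplicit false

open Pool.Agent.H524Z.Gam

theorem Pool.Agent.Results.MP_78373f_an.BInfiniteDim.result :
    ∃ (X : Type) (_ : NormedAddCommGroup X) (_ : NormedSpace ℝ X),
      ¬ FiniteDimensional ℝ X ∧ gamma X ≤ 1 ∧ 1 < gammaStar X :=
  main
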